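import Pool.Graph.R_seed8.W559.Mg.A7

/-!
# Multigraded atlases of complete varieties
-/

set_option autoImplicit false
set_option linter.unusedSectionVars false

universe u v w

namespace Pool.Agent.Helper49.PN

open Pool.Agent.W559.Mg

section pa

variable {k K : Type u} [Field k] [Field K] [Algebra k K] {G : Type} [AddCommGroup G]

/-- An atlas of a complete variety with function field `K` by quotients by a torus of the spectra
of the rings `C t`. -/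
structure PF (E : ℕ) {T : Type u}
    (C : T → Subalgebra k (ML K G)) (H : T → K) : Prop where
  H0 : ∀ t, H t ≠ 0
  gr : ∀ t, Gr (C t)
  rt : ∀ t t', mo 0 (H t' / H t) ∈ C t
  gl : ∀ t t', ∀ f ∈ C t', ∃ n : ℕ, mo 0 (H t' / H t) ^ n * f ∈ C t
  fr : ∀ t (x : K), ∃ a b, mo 0 a ∈ C t ∧ mo 0 b ∈ C t ∧ b ≠ 0 ∧ x = a / b
  cv : ∀ V : ValuationSubring K, (∀ c : k, algebraMap k K c ∈ V) → ∃ t E ψ, Nrm V E ψ (C t)
  E0 : 0 < E
  un : ∀ t, Un E (C t)
  gen : ∀ t, AddSubgroup.closure {m : G | ∃ a : K, a ≠ 0 ∧ mo m a ∈ C t} = ⊤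

variable {E : ℕ} {T : Type u}
  {C : T → Subalgebra k (ML K G)} {H : T → K}

/-- Modification of an atlas. -/
theorem modif [Finite T] (h : PF E C H) (τ : G →+ ℤ) {S : T → Subalgebra k (ML K G)}
    (hle : ∀ t, S t ≤ C t) (hgr : ∀ t, Gr (S t))
    (hneg : ∀ t m a, τ m ≤ 0 → mo m a ∈ C t → mo m a ∈ S t)
    (hgl : ∀ t t', ∀ f ∈ S t', ∃ n : ℕ, mo 0 (H t' / H t) ^ n * f ∈ S t)
    {J : T → Type u} [∀ t, Finite (J t)] (x : ∀ t, J t → K) (μ : ∀ t, J t → G) {L : ℕ}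
    (hL : 0 < L) (hx0 : ∀ t j, x t j ≠ 0) (hxS : ∀ t j, mo (μ t j) (x t j) ∈ S t)
    (hμ : ∀ t j, τ (μ t j) = L)
    (hcv : ∀ t (V : ValuationSubring K) E' (ψ' : G → V.ValueGroup), Nrm V E' ψ' (C t) →
      ∃ j E'' ψ'', Nrm V E'' ψ'' (S t) ∧ V.valuation (x t j) ^ E'' = ψ'' (μ t j)) :
    ∃ (N : ℕ) (u : (Σ t, J t) → K), (∀ p, u p ≠ 0 ∧ mo (E • μ p.1 p.2) (u p) ∈ C p.1 ∧
      mo (-(E • μ p.1 p.2)) (u p)⁻¹ ∈ C p.1) ∧
      PF (E * L) (fun p : Σ t, J t => lc (S p.1) (mo (μ p.1 p.2) (x p.1 p.2))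
        (hxS p.1 p.2)) (fun p => H p.1 ^ N * (x p.1 p.2 ^ E / u p)) := by
  classical
  have hfinJ : ∀ t, Fintype (J t) := fun t => Fintype.ofFinite _
  have hfinT : Fintype T := Fintype.ofFinite T
  have hE := h.E0
  choose u hu0 hu hu' using fun p : (Σ t, J t) => h.un p.1 (μ p.1 p.2)
  let X : (Σ t, J t) → ML K G := fun p => mo (μ p.1 p.2) (x p.1 p.2)
  let Ui : (Σ t, J t) → ML K G := fun p => mo (-(E • μ p.1 p.2)) (u p)⁻¹
  let U : (Σ t, J t) → ML K G := fun p => mo (E • μ p.1 p.2) (u p)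
  let R : T → T → ML K G := fun t t' => mo 0 (H t' / H t)
  have hX0 : ∀ p : (Σ t, J t), x p.1 p.2 ≠ 0 := fun p => hx0 _ _
  have hXS : ∀ p, X p ∈ S p.1 := fun p => hxS p.1 p.2
  have hXinv : ∀ p, X p * mo (-μ p.1 p.2) (x p.1 p.2)⁻¹ = 1 := fun p => mo_inv (hX0 p)
  have hτE : ∀ p : (Σ t, J t), τ (E • μ p.1 p.2) = E * L := by
    intro p
    rw [map_nsmul, hμ, nsmul_eq_mul]
  have hUiS : ∀ p, Ui p ∈ S p.1 := by
    intro p
    refine hneg _ _ _ ?_ (hu' p)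
    rw [map_neg, hτE]
    have : (0 : ℤ) ≤ E * L := by positivity
    linarith
  -- the basic functions of degree zero
  let hh : (Σ t, J t) → K := fun p => x p.1 p.2 ^ E / u p
  have hh0 : ∀ p, hh p ≠ 0 := fun p => div_ne_zero (pow_ne_zero _ (hX0 p)) (hu0 p)
  have hXE : ∀ p, X p ^ E * Ui p = mo 0 (hh p) := by
    intro p
    change mo _ _ ^ E * mo _ _ = mo 0 (x p.1 p.2 ^ E / u p)
    rw [mo_pow, mo_mul, add_neg_cancel, div_eq_mul_inv]
  have hhS : ∀ p, mo 0 (hh p) ∈ S p.1 := by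
    intro p
    rw [← hXE]
    exact (S p.1).mul_mem ((S p.1).pow_mem (hXS p) _) (hUiS p)
  choose n1 hn1 using fun (t : T) (p : Σ t, J t) => hgl t p.1 _ (hXS p)
  choose n2 hn2 using fun (t : T) (p : Σ t, J t) => h.gl t p.1 _ (hu' p)
  let N1 : ℕ := Finset.univ.sup fun t => Finset.univ.sup (n1 t)
  let N2 : ℕ := Finset.univ.sup fun t => Finset.univ.sup (n2 t)
  have hN1 : ∀ t p, n1 t p ≤ N1 := fun t p => (Finset.le_sup (f := n1 t) (Finset.mem_univ p)).trans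
    (Finset.le_sup (f := fun t => Finset.univ.sup (n1 t)) (Finset.mem_univ t))
  have hN2 : ∀ t p, n2 t p ≤ N2 := fun t p => (Finset.le_sup (f := n2 t) (Finset.mem_univ p)).trans
    (Finset.le_sup (f := fun t => Finset.univ.sup (n2 t)) (Finset.mem_univ t))
  let N : ℕ := E * N1 + N2 + 1
  have hRS : ∀ t t', R t t' ∈ S t := by
    intro t t'
    refine hneg _ _ _ ?_ (h.rt t t')
    rw [map_zero]
  -- first estimate
  have F1 : ∀ (t : T) (p : Σ t, J t) (m a : ℕ), m * N1 ≤ a →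
      R t p.1 ^ a * X p ^ m ∈ S t := by
    intro t p m a ha
    obtain ⟨b, rfl⟩ := Nat.exists_eq_add_of_le ha
    obtain ⟨c, hc⟩ := Nat.exists_eq_add_of_le (hN1 t p)
    have h1 : R t p.1 ^ n1 t p * X p ∈ S t := hn1 t p
    have h3 : R t p.1 ^ (m * N1 + b) * X p ^ m =
        R t p.1 ^ (m * c + b) * (R t p.1 ^ n1 t p * X p) ^ m := by
      rw [hc]; ring
    rw [h3]
    exact (S t).mul_mem ((S t).pow_mem (hRS t p.1) _) ((S t).pow_mem h1 _)
  have F2 : ∀ (p p' : Σ t, J t) (m a : ℕ), m * N2 ≤ a →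
      R p.1 p'.1 ^ a * (Ui p' * U p) ^ m ∈ S p.1 := by
    intro p p' m a ha
    obtain ⟨b, rfl⟩ := Nat.exists_eq_add_of_le ha
    obtain ⟨c, hc⟩ := Nat.exists_eq_add_of_le (hN2 p.1 p')
    have h1 : R p.1 p'.1 ^ n2 p.1 p' * (Ui p' * U p) ∈ S p.1 := by
      have h2 : R p.1 p'.1 ^ n2 p.1 p' * (Ui p' * U p) ∈ C p.1 := by
        rw [← mul_assoc]
        exact (C p.1).mul_mem (hn2 p.1 p') (hu p)
      have h3 : R p.1 p'.1 ^ n2 p.1 p' * (Ui p' * U p) =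
          mo (n2 p.1 p' • (0 : G) + (-(E • μ p'.1 p'.2) + E • μ p.1 p.2))
            ((H p'.1 / H p.1) ^ n2 p.1 p' * ((u p')⁻¹ * u p)) := by
        change mo _ _ ^ _ * (mo _ _ * mo _ _) = _
        rw [mo_pow, mo_mul, mo_mul]
      rw [h3] at h2 ⊢
      refine hneg _ _ _ ?_ h2
      rw [smul_zero, zero_add, map_add, map_neg, hτE, hτE, neg_add_cancel]
    have h3 : R p.1 p'.1 ^ (m * N2 + b) * (Ui p' * U p) ^ m =
        R p.1 p'.1 ^ (m * c + b) * (R p.1 p'.1 ^ n2 p.1 p' * (Ui p' * U p)) ^ m := by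
      rw [hc]; ring
    rw [h3]
    exact (S p.1).mul_mem ((S p.1).pow_mem (hRS _ _) _) ((S p.1).pow_mem h1 _)
  let H' : (Σ t, J t) → K := fun p => H p.1 ^ N * hh p
  have hH'0 : ∀ p, H' p ≠ 0 := fun p => mul_ne_zero (pow_ne_zero _ (h.H0 _)) (hh0 p)
  let C' : (Σ t, J t) → Subalgebra k (ML K G) := fun p => lc (S p.1) (X p) (hXS p)
  -- the ratio of the markers
  have hratio : ∀ (p p' : Σ t, J t) (n : ℕ), X p ^ (n * E) *
      mo 0 (H' p' / H' p) ^ n = R p.1 p'.1 ^ (n * N) *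
        (Ui p' * U p) ^ n * X p' ^ (n * E) := by
    intro p p' n
    have h1 : X p ^ E * mo 0 (H' p' / H' p) = R p.1 p'.1 ^ N * (Ui p' * U p) * X p' ^ E := by
      change mo _ _ ^ E * mo _ _ = mo _ _ ^ N * (mo _ _ * mo _ _) * mo _ _ ^ E
      rw [mo_pow, mo_pow, mo_pow, mo_mul, mo_mul, mo_mul, mo_mul]
      congr 1
      · rw [smul_zero]; abel
      · change x p.1 p.2 ^ E * ((H p'.1 ^ N * (x p'.1 p'.2 ^ E / u p')) /
          (H p.1 ^ N * (x p.1 p.2 ^ E / u p))) = _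
        have e1 := h.H0 p.1
        have e2 := hu0 p
        have e3 := hu0 p'
        have e4 := hX0 p
        rw [div_pow]
        field_simp
    have h2 : X p ^ (n * E) * mo 0 (H' p' / H' p) ^ n =
        (X p ^ E * mo 0 (H' p' / H' p)) ^ n := by ring
    rw [h2, h1]
    ring
  have hXC' : ∀ p, X p ∈ C' p := fun p => le_lc _ _ _ (hXS p)
  have hXC'i : ∀ p, mo (-μ p.1 p.2) (x p.1 p.2)⁻¹ ∈ C' p := fun p =>
    inv_mem_lc _ _ _ _ (hXinv p)
  refine ⟨N, u, fun p => ⟨hu0 p, hu p, hu' p⟩, ?_⟩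
  refine
    { H0 := hH'0
      gr := ?_
      rt := ?_
      gl := ?_
      fr := ?_
      cv := ?_
      E0 := Nat.mul_pos hE hL
      un := ?_
      gen := ?_ }
  · rintro p f ⟨n, hn⟩ e
    have h1 := hgr p.1 _ hn (n • μ p.1 p.2 + e)
    have h2 : mo (μ p.1 p.2) (x p.1 p.2) ^ n * mo e (f.coeff e) = mo (n • μ p.1 p.2 + e)
        ((mo (μ p.1 p.2) (x p.1 p.2) ^ n * f).coeff (n • μ p.1 p.2 + e)) := by
      rw [mo_pow, mo_mul, coeff_mo_mul, add_sub_cancel_left]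
    rw [← h2] at h1
    exact ⟨n, h1⟩
  · intro p p'
    refine ⟨E, ?_⟩
    have h1 := hratio p p' 1
    simp only [one_mul, pow_one] at h1
    change X p ^ E * mo 0 (H' p' / H' p) ∈ S p.1
    rw [h1]
    have h2 : N2 + E * N1 ≤ N := by
      change N2 + E * N1 ≤ E * N1 + N2 + 1
      omega
    obtain ⟨c, hc⟩ := Nat.exists_eq_add_of_le h2
    have h3 : R p.1 p'.1 ^ N * (Ui p' * U p) * X p' ^ E =
        (R p.1 p'.1 ^ (N2 + c) * (Ui p' * U p) ^ 1) * (R p.1 p'.1 ^ (E * N1) * X p' ^ E) := by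
      rw [hc]; ring
    rw [h3]
    exact (S p.1).mul_mem (F2 p p' 1 _ (by omega)) (F1 p.1 p' _ _ le_rfl)
  · rintro p p' f ⟨m, hm'⟩
    obtain ⟨n0, hn0⟩ := hgl p.1 p'.1 _ hm'
    let n := n0 + m
    refine ⟨n, n * E, ?_⟩
    have h1 : m ≤ n * E := by
      have := Nat.mul_le_mul_left n hE
      have h2 : n = n0 + m := rfl
      omega
    obtain ⟨c, hc⟩ := Nat.exists_eq_add_of_le h1
    have h2 : n * N2 + c * N1 + n0 ≤ n * N := by
      have e1 : c ≤ n * E := by omega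
      have e2 := Nat.mul_le_mul_right N1 e1
      have e3 : n * N = n * E * N1 + n * N2 + n := by
        change n * (E * N1 + N2 + 1) = _
        ring
      have e4 : n = n0 + m := rfl
      rw [e3]
      omega
    obtain ⟨c', hc'⟩ := Nat.exists_eq_add_of_le h2
    have h3 : X p ^ (n * E) * (mo 0 (H' p' / H' p) ^ n * f) =
        (R p.1 p'.1 ^ (n * N2 + c') * (Ui p' * U p) ^ n) *
          ((R p.1 p'.1 ^ (c * N1) * X p' ^ c) * (R p.1 p'.1 ^ n0 * (X p' ^ m * f))) := by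
      rw [← mul_assoc, hratio, hc, hc']
      ring
    change X p ^ (n * E) * (mo 0 (H' p' / H' p) ^ n * f) ∈ S p.1
    rw [h3]
    exact (S p.1).mul_mem (F2 p p' n _ (by omega))
      ((S p.1).mul_mem (F1 p.1 p' _ _ le_rfl) hn0)
  · intro p y
    obtain ⟨a, b, ha, hb, hb0, hab⟩ := h.fr p.1 y
    exact ⟨a, b, le_lc _ _ _ (hneg _ _ _ (by rw [map_zero]) ha),
      le_lc _ _ _ (hneg _ _ _ (by rw [map_zero]) hb), hb0, hab⟩
  · intro V hV
    obtain ⟨t, E', ψ', ht⟩ := h.cv V hV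
    obtain ⟨j, E'', ψ'', h1, h2⟩ := hcv t V E' ψ' ht
    exact ⟨⟨t, j⟩, E'', ψ'', nrm_lc h1 _ h2⟩
  · intro p m
    let κ : G := L • m - τ m • μ p.1 p.2
    obtain ⟨w, hw0, hw, hw'⟩ := h.un p.1 κ
    have hτκ : τ κ = 0 := by
      change τ (L • m - τ m • μ p.1 p.2) = 0
      rw [map_sub, map_nsmul, map_zsmul, hμ, nsmul_eq_mul, smul_eq_mul]
      ring
    have hwS : mo (E • κ) w ∈ C' p := by
      refine le_lc _ _ _ (hneg _ _ _ ?_ hw)
      rw [map_nsmul, hτκ, smul_zero]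
    have hwS' : mo (-(E • κ)) w⁻¹ ∈ C' p := by
      refine le_lc _ _ _ (hneg _ _ _ ?_ hw')
      rw [map_neg, map_nsmul, hτκ, smul_zero, neg_zero]
    have e1 : E • κ + ((E : ℤ) * τ m) • μ p.1 p.2 = (E * L) • m := by
      change E • (L • m - τ m • μ p.1 p.2) + _ = _
      rw [smul_sub, mul_smul, mul_smul, natCast_zsmul]
      abel
    refine ⟨w * x p.1 p.2 ^ ((E : ℤ) * τ m), mul_ne_zero hw0 (zpow_ne_zero _ (hX0 p)), ?_, ?_⟩
    · rw [← e1, ← mo_mul]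
      exact (C' p).mul_mem hwS (zpow_mem' (hXC' p) (hXC'i p) _)
    · rw [← e1, mul_inv, neg_add, ← mo_mul]
      refine (C' p).mul_mem hwS' ?_
      have h1 := zpow_mem' (hXC' p) (hXC'i p) (-((E : ℤ) * τ m))
      rwa [neg_smul, zpow_neg] at h1
  · intro p
    rw [eq_top_iff, ← h.gen p.1, AddSubgroup.closure_le]
    rintro m ⟨a, ha0, ha⟩
    have h3 : mo m a * Ui p ^ (τ m).toNat = mo (m + (τ m).toNat • -(E • μ p.1 p.2))
        (a * (u p)⁻¹ ^ (τ m).toNat) := by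
      change mo m a * mo _ _ ^ _ = _
      rw [mo_pow, mo_mul]
    have h1 : mo m a * Ui p ^ (τ m).toNat ∈ C' p := by
      have h2 : mo m a * Ui p ^ (τ m).toNat ∈ C p.1 :=
        (C p.1).mul_mem ha ((C p.1).pow_mem (hu' p) _)
      refine le_lc _ _ _ ?_
      rw [h3] at h2 ⊢
      refine hneg _ _ _ ?_ h2
      rw [map_add, map_nsmul, map_neg, hτE, nsmul_eq_mul]
      have h4 : τ m ≤ (τ m).toNat := Int.self_le_toNat _
      have h5 : (1 : ℤ) ≤ E * L := by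
        have : 1 ≤ E * L := Nat.mul_pos hE hL
        exact_mod_cast this
      nlinarith [Int.natCast_nonneg (τ m).toNat]
    have h2 : m + (τ m).toNat • -(E • μ p.1 p.2) ∈ AddSubgroup.closure
        {m : G | ∃ a : K, a ≠ 0 ∧ mo m a ∈ C' p} := by
      apply AddSubgroup.subset_closure
      refine ⟨a * (u p)⁻¹ ^ (τ m).toNat, mul_ne_zero ha0 (pow_ne_zero _ (inv_ne_zero (hu0 p))), ?_⟩
      rwa [← h3]
    have h3 : μ p.1 p.2 ∈ AddSubgroup.closure {m : G | ∃ a : K, a ≠ 0 ∧ mo m a ∈ C' p} :=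
      AddSubgroup.subset_closure ⟨_, hX0 p, hXC' p⟩
    have h4 : m = (m + (τ m).toNat • -(E • μ p.1 p.2)) + (τ m).toNat • (E • μ p.1 p.2) := by
      rw [smul_neg]; abel
    change m ∈ AddSubgroup.closure {m : G | ∃ a : K, a ≠ 0 ∧ mo m a ∈ C' p}
    rw [h4]
    exact AddSubgroup.add_mem _ h2 (AddSubgroup.nsmul_mem _ (AddSubgroup.nsmul_mem _ h3 _) _)

end pa

end Pool.Agent.Helper49.PN
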