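import Pool.Agent.Helper49.PN.E1

/-!
# Removal of the gradings from multigraded atlases of complete varieties
-/

set_option autoImplicit false
set_option linter.unusedSectionVars false

universe u v w

namespace Pool.Agent.Helper49.PN

open Pool.Agent.W559.Mg

section ma

variable {k K : Type u} [Field k] [Field K] [Algebra k K] {G : Type} [AddCommGroup G]

/-- A smooth atlas. -/
structure MF (E : ℕ) {T : Type u} (C : T → Subalgebra k (ML K G)) (H : T → K) : Prop where
  pa : PF E C H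
  sm : ∀ t, Algebra.Smooth k (C t)

end ma

section low

variable {k K : Type u} [Field k] [Field K] [Algebra k K] {G : Type} [AddCommGroup G] {E : ℕ}
  {T : Type u} {C : T → Subalgebra k (ML K (ℤ × G))} {H : T → K}

/-- Lowering the degrees of the units. -/
theorem lower_step [IsDomain (ML K G)] [Finite T] {ρ : ℕ} (hρ : 2 ≤ ρ) (h : MF E C H)
    (hbd : ∀ t, Bd (fs G) ρ (C t)) :
    ∃ (T' : Type u) (_ : Finite T') (E' : ℕ) (C' : T' → Subalgebra k (ML K (ℤ × G))) (H' : T' → K),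
      MF E' C' H' ∧ ∀ t, Bd (fs G) (ρ - 1) (C' t) := by
  classical
  have hρ0 : (0 : ℤ) < ρ := by exact_mod_cast (by omega : 0 < ρ)
  let S : T → Subalgebra k (ML K (ℤ × G)) := fun t => lo (fs G) (C t) ρ
  have hsm : ∀ t, Algebra.Smooth k (S t) := fun t =>
    smooth_lo' (h.pa.gr t) (h.sm t) (by omega) h.pa.E0 (h.pa.un t) (hbd t)
  have hfg : ∀ t, (S t).FG := fun t => by
    have h1 := hsm t
    have h2 : Algebra.FiniteType k (S t) := inferInstance
    exact (Subalgebra.fg_iff_finiteType _).2 h2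
  choose I hI d c hc0 hcX hcS using fun t => exists_family (hfg t)
    {f | f ∈ C t ∧ ∃ (d : ℤ × G) (a : K), fs G d < ρ ∧ f = mo d a}
    (fun f hf => ⟨_, _, hf.2.choose_spec.choose_spec.2⟩) rfl
  have hcC : ∀ t i, mo (d t i) (c t i) ∈ C t ∧ fs G (d t i) < ρ := by
    intro t i
    obtain ⟨h1, d', a', h2, h3⟩ := hcX t i
    refine ⟨h1, ?_⟩
    by_contra hcon
    have h4 : d t i ≠ d' := by
      rintro h5
      rw [h5] at hcon
      exact hcon h2
    have h5 := congrArg (fun f => f.coeff (d t i)) h3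
    rw [coeff_mo_same, coeff_mo_ne h4.symm] at h5
    exact hc0 t i h5
  let J : T → Type u := fun t => {i : I t // 0 < fs G (d t i)}
  have hJ : ∀ t, Finite (J t) := fun t => inferInstance
  let L : ℕ := ρ.factorial
  have hL0 : 0 < L := Nat.factorial_pos ρ
  let e : ∀ t, J t → ℕ := fun t j => (fs G (d t j.1)).toNat
  have he : ∀ t j, ((e t j : ℕ) : ℤ) = fs G (d t j.1) := fun t j =>
    Int.toNat_of_nonneg j.2.le
  have he0 : ∀ t j, 0 < e t j := fun t j => by
    have h1 := he t j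
    have h2 := j.2
    omega
  have heρ : ∀ t j, e t j < ρ := fun t j => by
    have h1 := he t j
    have h2 := (hcC t j.1).2
    omega
  have heL : ∀ t j, e t j * (L / e t j) = L := fun t j =>
    Nat.mul_div_cancel' (Nat.dvd_factorial (he0 t j) (heρ t j).le)
  let x : ∀ t, J t → K := fun t j => c t j.1 ^ (L / e t j)
  let μ : ∀ t, J t → ℤ × G := fun t j => (L / e t j) • d t j.1
  have hxμ : ∀ t j, mo (μ t j) (x t j) = mo (d t j.1) (c t j.1) ^ (L / e t j) := fun t j =>
    (mo_pow _ _ _).symm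
  have hx0 : ∀ t j, x t j ≠ 0 := fun t j => pow_ne_zero _ (hc0 t _)
  have hcl : ∀ t i, mo (d t i) (c t i) ∈ S t := fun t i => mem_lo (hcC t i).1 (hcC t i).2
  have hxS : ∀ t j, mo (μ t j) (x t j) ∈ S t := by
    intro t j
    rw [hxμ]
    exact (S t).pow_mem (hcl t _) _
  have hμ : ∀ t j, fs G (μ t j) = L := by
    intro t j
    change fs G ((L / e t j) • d t j.1) = L
    rw [map_nsmul, nsmul_eq_mul, ← he, mul_comm]
    exact_mod_cast heL t j
  have hJne : ∀ t, Nonempty (J t) := by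
    intro t
    have hg := h.pa.gen t
    obtain ⟨m, a, ha0, ha, hm, hmρ⟩ := exists_low_elt hρ (hbd t) hg
    obtain ⟨i, hi⟩ := exists_pos_gen (k := k) (fs G) (d t) (c t) ha0 hm (by
      rw [hcS t]; exact mem_lo ha hmρ)
    exact ⟨⟨i, hi⟩⟩
  obtain ⟨N, u, hu, hpa⟩ := modif h.pa (fs G) (S := S) (fun t => lo_le _ _ _)
    (fun t => gr_lo _ _ _)
    (fun t m a hm ha => mem_lo ha (lt_of_le_of_lt hm hρ0))
    (by
      intro t t' f hf
      have h0 : mo 0 (H t' / H t) ∈ S t := mem_lo (h.pa.rt t t') (by rw [map_zero]; exact hρ0)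
      have h1 : S t' ≤ lc (S t) (mo 0 (H t' / H t)) h0 := by
        change lo (fs G) (C t') ρ ≤ _
        conv_lhs => unfold lo
        rw [Algebra.adjoin_le_iff]
        rintro _ ⟨hf, e, a, he, rfl⟩
        obtain ⟨n, hn⟩ := h.pa.gl t t' _ hf
        refine ⟨n, ?_⟩
        rw [mo_pow, mo_mul, smul_zero, zero_add] at hn ⊢
        exact mem_lo hn he
      exact h1 hf)
    x μ hL0 hx0 hxS hμ
    (by
      intro t V E' ψ' hN
      have := hJne t
      refine nrm_adjust hN (lo_le _ _ _) (fs G) (d t) (c t) (hc0 t) (hcS t) (x t) (μ t) (hx0 t)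
        (fun j => hxS t j) (fun j => by rw [hμ]; exact_mod_cast hL0) ?_
      intro i hi
      have : Fintype (J t) := Fintype.ofFinite _
      refine ⟨L / e t ⟨i, hi⟩, fun j => if j = ⟨i, hi⟩ then 1 else 0, ?_, ?_⟩
      · intro j
        by_cases hj : j = ⟨i, hi⟩
        · simp only [hj, if_true]
          exact (S t).one_mem
        · simp only [hj, if_false]
          exact (S t).zero_mem
      · rw [finsum_eq_sum_of_fintype, Finset.sum_eq_single ⟨i, hi⟩]
        · simp only [if_true]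
          rw [one_mul, hxμ]
        · intro j _ hj
          simp only [hj, if_false]
          rw [zero_mul]
        · intro h
          exact absurd (Finset.mem_univ _) h)
  refine ⟨Σ t, J t, inferInstance, E * L, _, _, ⟨hpa, ?_⟩, ?_⟩
  · intro p
    exact smooth_lc (hsm p.1) _ (isUnit_mo (hx0 _ _))
  · intro p
    have hXm : mo (d p.1 p.2.1) (c p.1 p.2.1) ∈ S p.1 := hcl p.1 p.2.1
    refine ⟨d p.1 p.2.1, e p.1 p.2, (he p.1 p.2).symm, he0 _ _, by have := heρ p.1 p.2; omega,
      c p.1 p.2.1, hc0 _ _, le_lc _ _ _ hXm, 1, ?_⟩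
    rw [pow_one, hxμ]
    obtain ⟨n, hn⟩ : ∃ n, L / e p.1 p.2 = n + 1 := by
      refine Nat.exists_eq_succ_of_ne_zero ?_
      intro h0
      have := heL p.1 p.2
      rw [h0, mul_zero] at this
      omega
    rw [hn, pow_succ, mul_assoc, mo_inv (hc0 _ _), mul_one]
    exact (S p.1).pow_mem hXm n

/-- Lowering the degrees of the units to one. -/
theorem lower_all [IsDomain (ML K G)] (ρ : ℕ) : ∀ {T : Type u} [Finite T] {E : ℕ}
    {C : T → Subalgebra k (ML K (ℤ × G))} {H : T → K}, MF E C H → (∀ t, Bd (fs G) ρ (C t)) →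
    ∃ (T' : Type u) (_ : Finite T') (E' : ℕ) (C' : T' → Subalgebra k (ML K (ℤ × G))) (H' : T' → K),
      MF E' C' H' ∧ ∀ t, Bd (fs G) 1 (C' t) := by
  induction ρ with
  | zero =>
    intro T _ E C H h hbd
    refine ⟨T, inferInstance, E, C, H, h, fun t => ?_⟩
    obtain ⟨m, r, h1, h2, h3, h4⟩ := hbd t
    omega
  | succ ρ ih =>
    intro T _ E C H h hbd
    by_cases hρ : ρ = 0
    · subst hρ
      exact ⟨T, inferInstance, E, C, H, h, hbd⟩
    · obtain ⟨T', hT', E', C', H', h', hbd'⟩ := lower_step (by omega) h hbd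
      exact ih h' hbd'

/-- The units of an atlas. -/
lemma MF.bd (h : MF E C H) (t : T) : Bd (fs G) E (C t) := by
  obtain ⟨u, hu0, hu, hu'⟩ := h.pa.un t (1, 0)
  refine ⟨E • (1, 0), E, ?_, h.pa.E0, le_rfl, u, hu0, hu, hu'⟩
  rw [map_nsmul, nsmul_eq_mul]
  change (E : ℤ) * 1 = E
  rw [mul_one]

end low

section drop

variable {k K : Type u} [Field k] [Field K] [Algebra k K] {G : Type} [AddCommGroup G]
  {E : ℕ} {T : Type u} {C : T → Subalgebra k (ML K (ℤ × G))} {H : T → K}

/-- Removal of the first direction. -/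
theorem MF.drop (h : MF E C H) (hbd : ∀ t, Bd (fs G) 1 (C t)) :
    MF E (fun t => dz (C t)) H := by
  have hunit : ∀ t, ∃ (u : Kˣ) (l : G), mo (1, l) (u : K) ∈ C t ∧
      mo (-(1, l)) (u : K)⁻¹ ∈ C t := by
    intro t
    obtain ⟨⟨d, l⟩, r, h1, h2, h3, u, hu0, hu, hu'⟩ := hbd t
    have hr : r = 1 := by omega
    subst hr
    have hd : d = 1 := h1
    subst hd
    exact ⟨Units.mk0 u hu0, l, hu, hu'⟩
  choose u l hu hu' using hunit
  refine ⟨{ H0 := h.pa.H0
            gr := ?_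
            rt := ?_
            gl := ?_
            fr := ?_
            cv := ?_
            E0 := h.pa.E0
            un := ?_
            gen := ?_ }, fun t => smooth_dz (h.pa.gr t) (h.sm t) (u t) (l t) (hu t) (hu' t)⟩
  · intro t
    exact gr_dz (h.pa.gr t)
  · intro t t'
    exact mo_mem_dz.2 (h.pa.rt t t')
  · intro t t' f hf
    obtain ⟨n, hn⟩ := h.pa.gl t t' _ (mem_dz.1 hf)
    refine ⟨n, ?_⟩
    rw [mem_dz, map_mul, map_pow, inc_mo]
    exact hn
  · intro t x
    obtain ⟨a, b, ha, hb, hb0, hab⟩ := h.pa.fr t x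
    exact ⟨a, b, mo_mem_dz.2 ha, mo_mem_dz.2 hb, hb0, hab⟩
  · intro V hV
    obtain ⟨t, E', ψ, hN⟩ := h.pa.cv V hV
    refine ⟨t, E', fun m => ψ (0, m), hN.1, fun m => hN.2.1 _, fun m m' => ?_, fun f hf m => ?_⟩
    · rw [← hN.2.2.1]
      rfl
    · rw [← coeff_inc (k := k)]
      exact hN.2.2.2 _ (mem_dz.1 hf) _
  · intro t m
    obtain ⟨w, hw0, hw, hw'⟩ := h.pa.un t (0, m)
    refine ⟨w, hw0, mo_mem_dz.2 ?_, mo_mem_dz.2 ?_⟩
    · have e1 : E • ((0 : ℤ), m) = (0, E • m) := by simp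
      rwa [e1] at hw
    · have e1 : -(E • ((0 : ℤ), m)) = (0, -(E • m)) := by simp
      rwa [e1] at hw'
  · intro t
    have h1 := h.pa.gen t
    let π : ℤ × G →+ G := AddMonoidHom.snd ℤ G -
      (zmultiplesHom G (l t)).comp (AddMonoidHom.fst ℤ G)
    have hπ : ∀ d μ, π (d, μ) = μ - d • l t := fun d μ => rfl
    have h2 : AddSubgroup.closure {m : ℤ × G | ∃ a : K, a ≠ 0 ∧ mo m a ∈ C t} ≤
        (AddSubgroup.closure {m : G | ∃ a : K, a ≠ 0 ∧ mo m a ∈ dz (C t)}).comap π := by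
      rw [AddSubgroup.closure_le]
      rintro ⟨d, μ⟩ ⟨a, ha0, ha⟩
      apply AddSubgroup.subset_closure
      refine ⟨a * ((u t ^ (-d) : Kˣ) : K), mul_ne_zero ha0 (Units.ne_zero _), ?_⟩
      rw [hπ, ← ret_mo (k := k)]
      exact ret_mem (h.pa.gr t) (u t) (l t) (hu t) (hu' t) ha
    rw [h1] at h2
    rw [eq_top_iff]
    intro m _
    have h3 : ((0 : ℤ), m) ∈ (⊤ : AddSubgroup (ℤ × G)) := AddSubgroup.mem_top _
    have h4 := h2 h3
    rw [AddSubgroup.mem_comap, hπ, zero_smul, sub_zero] at h4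
    exact h4

end drop

section step

variable {k K : Type u} [Field k] [Field K] [Algebra k K] {G : Type} [AddCommGroup G]

/-- Removal of a direction. -/
theorem mf_step [IsDomain (ML K G)] {T : Type u} [Finite T] {E : ℕ}
    {C : T → Subalgebra k (ML K (ℤ × G))} {H : T → K} (h : MF E C H) :
    ∃ (T' : Type u) (_ : Finite T') (E' : ℕ) (C' : T' → Subalgebra k (ML K G)) (H' : T' → K),
      MF E' C' H' := by
  obtain ⟨T', hT', E', C', H', h', hbd⟩ := lower_all E h h.bd
  exact ⟨T', hT', E', _, H', h'.drop hbd⟩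

end step

end Pool.Agent.Helper49.PN
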