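import Pool.Agent.Helper49.PN.E2
import Pool.Graph.R_seed8.W418.Z.Reg

/-!
# Regular models from multigraded atlases
-/

set_option autoImplicit false
set_option linter.unusedSectionVars false

namespace Pool.Agent.Helper49.PN

open AlgebraicGeometry CategoryTheory Pool.Agent.H920R2 Pool.Agent.W559.Mg

/-- There is a regular integral scheme with function field `K` which is proper over the
integers. -/
def HasModel (K : Type) [Field K] : Prop :=
  ∃ (X' : Scheme.{0}) (_ : IsIntegral X') (g : X' ⟶ Spec (CommRingCat.of ℤ)),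
    IsProper g ∧
    (∀ x : X',
      (((Module.finrank (IsLocalRing.ResidueField (X'.presheaf.stalk x))
          (IsLocalRing.CotangentSpace (X'.presheaf.stalk x)) : ℕ∞)) : WithBot ℕ∞)
        = ringKrullDim (X'.presheaf.stalk x)) ∧
    Nonempty (X'.functionField ≃+* K)

/-- An atlas without gradings gives a regular model. -/
theorem hasModel_base {k K : Type} [Field k] [Finite k] [Field K] [Algebra k K] {T : Type}
    [Finite T] {E : ℕ} {C : T → Subalgebra k (ML K Unit)} {H : T → K} (h : MF E C H) :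
    HasModel K := by
  classical
  have : Fintype T := Fintype.ofFinite T
  have hsm : ∀ t, Algebra.Smooth k (d0 (C t)) := fun t => smooth_d0 (h.sm t)
  have hfg : ∀ t, ∃ G : Finset K, Algebra.adjoin k (G : Set K) = d0 (C t) := by
    intro t
    have h1 := hsm t
    have h2 : Algebra.FiniteType k (d0 (C t)) := inferInstance
    obtain ⟨G, hG⟩ := (Subalgebra.fg_iff_finiteType _).2 h2
    exact ⟨G, hG⟩
  choose G hG using hfg
  have hGm : ∀ t, ∀ x ∈ G t, x ∈ d0 (C t) := by
    intro t x hx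
    rw [← hG t]; exact Algebra.subset_adjoin hx
  have hrt : ∀ t t', H t' / H t ∈ d0 (C t) := fun t t' => h.pa.rt t t'
  have hgl : ∀ t t', ∀ x ∈ d0 (C t'), ∃ n : ℕ, (H t' / H t) ^ n * x ∈ d0 (C t) := by
    intro t t' x hx
    obtain ⟨n, hn⟩ := h.pa.gl t t' _ hx
    refine ⟨n, ?_⟩
    have hn' : mo (0 : Unit) (H t' / H t) ^ n * mo 0 x ∈ C t := hn
    rw [mo_pow, mo_mul, smul_zero, zero_add] at hn'
    exact hn'
  have hmono : ∀ (t t' : T) (x : K) (n m : ℕ), n ≤ m → (H t' / H t) ^ n * x ∈ d0 (C t) →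
      (H t' / H t) ^ m * x ∈ d0 (C t) := by
    intro t t' x n m hnm hx
    obtain ⟨e, rfl⟩ := Nat.exists_eq_add_of_le hnm
    have h1 : (H t' / H t) ^ (n + e) * x = (H t' / H t) ^ e * ((H t' / H t) ^ n * x) := by ring
    rw [h1]
    exact (d0 (C t)).mul_mem ((d0 (C t)).pow_mem (hrt t t') e) hx
  have h1 : ∀ p : (Σ t, {x // x ∈ G t}), ∃ n : ℕ, ∀ t, (H p.1 / H t) ^ n * p.2.1 ∈ d0 (C t) := by
    rintro ⟨t, x, hx⟩
    choose m hm' using fun t' => hgl t' t _ (hGm t x hx)
    exact ⟨Finset.univ.sup m, fun t' => hmono _ _ _ _ _ (Finset.le_sup (Finset.mem_univ t'))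
      (hm' t')⟩
  choose N hN using h1
  let n : ℕ := Finset.univ.sup N
  have hNn : ∀ p, N p ≤ n := fun p => Finset.le_sup (Finset.mem_univ p)
  let z : T ⊕ (Σ t, {x // x ∈ G t}) → K :=
    Sum.elim (fun t => H t ^ n) fun p => H p.1 ^ n * p.2.1
  have hz0 : ∀ t, z (Sum.inl t) ≠ 0 := fun t => pow_ne_zero n (h.pa.H0 t)
  have hz : ∀ t i, z i / z (Sum.inl t) ∈ d0 (C t) := by
    intro t i
    rcases i with t' | p
    · change H t' ^ n / H t ^ n ∈ d0 (C t)
      rw [← div_pow]
      exact (d0 (C t)).pow_mem (hrt t t') n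
    · change H p.1 ^ n * p.2.1 / H t ^ n ∈ d0 (C t)
      have e1 : H p.1 ^ n * p.2.1 / H t ^ n = (H p.1 / H t) ^ n * p.2.1 := by
        rw [div_pow]; ring
      rw [e1]
      exact hmono _ _ _ _ _ (hNn p) (hN p t)
  have hA : ∀ t, Algebra.adjoin k (Set.range fun i => z i / z (Sum.inl t)) = d0 (C t) := by
    intro t
    apply le_antisymm
    · refine Algebra.adjoin_le ?_
      rintro _ ⟨i, rfl⟩
      exact hz t i
    · rw [← hG t, Algebra.adjoin_le_iff]
      intro x hx
      apply Algebra.subset_adjoin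
      refine ⟨Sum.inr ⟨t, x, hx⟩, ?_⟩
      change H t ^ n * x / H t ^ n = x
      have := pow_ne_zero n (h.pa.H0 t)
      field_simp
  have hM : ModelG k (fun t : T => ((d0 (C t) : Subalgebra k K) : Set K))
      (⊤ : IntermediateField k K).toSubfield z (Set.range Sum.inl) := by
    refine ⟨?_, ?_, ?_, ?_, ?_⟩
    · intro i
      trivial
    · rintro _ ⟨t, rfl⟩
      exact hz0 t
    · intro V hV
      obtain ⟨t, E', ψ, ht⟩ := h.pa.cv V hV
      refine ⟨Sum.inl t, ⟨t, rfl⟩, fun i => ?_⟩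
      have h3 := ht.mo (hz t i)
      rw [psi_zero ht.2.1 ht.2.2.1] at h3
      rw [← V.valuation_le_one_iff]
      exact (pow_le_one_iff_of_nonneg zero_le ht.1.ne').1 h3
    · rintro _ ⟨t, rfl⟩
      rw [hA t]
      exact hsm t
    · rintro _ ⟨t, rfl⟩
      exact ⟨t, by rw [hA t]⟩
  obtain ⟨X', hX', g, h1, h2, ⟨h3⟩⟩ := exists_regular_model (⊤ : IntermediateField k K) hM
    (fun t x _ => by
      obtain ⟨a, b, ha, hb, hb0, hx⟩ := h.pa.fr t x
      exact ⟨a, ha, b, hb, hb0, hx⟩)
  exact ⟨X', hX', g, h1, h2, ⟨h3.trans IntermediateField.topEquiv.toRingEquiv⟩⟩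

/-- The groups of degrees which can be removed. -/
def NR (G : Type) [AddCommGroup G] : Prop :=
  TwoUniqueSums G ∧
  ∀ (k K : Type) [Field k] [Finite k] [Field K] [Algebra k K] (T : Type) [Finite T] (E : ℕ)
    (C : T → Subalgebra k (ML K G)) (H : T → K), MF E C H → HasModel K

lemma nr_unit : NR Unit := by
  refine ⟨inferInstance, ?_⟩
  intro k K _ _ _ _ T _ E C H h
  exact hasModel_base h

lemma nr_prod {G : Type} [AddCommGroup G] (hG : NR G) : NR (ℤ × G) := by
  obtain ⟨h1, h4⟩ := hG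
  refine ⟨inferInstance, ?_⟩
  intro k K _ _ _ _ T _ E C H h
  have : IsDomain (ML K G) := NoZeroDivisors.to_isDomain _
  obtain ⟨T1, hT1, E1, C1, H1, h1⟩ := mf_step h
  exact h4 k K T1 E1 C1 H1 h1

/-- The group of degrees. -/
lemma exists_nr_fin (n : ℕ) : ∃ (L : Type) (_ : AddCommGroup L) (_ : L ≃+ (Fin n → ℤ)), NR L := by
  induction n with
  | zero =>
    exact ⟨Unit, inferInstance,
      { toFun := fun _ => 0
        invFun := fun _ => ()
        left_inv := fun _ => rfl
        right_inv := fun f => by funext i; exact i.elim0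
        map_add' := fun _ _ => by simp }, nr_unit⟩
  | succ n ih =>
    obtain ⟨L, _, e, hL⟩ := ih
    refine ⟨ℤ × L, inferInstance,
      { toFun := fun x => Fin.cons x.1 (e x.2)
        invFun := fun f => (f 0, e.symm (Fin.tail f))
        left_inv := ?_
        right_inv := ?_
        map_add' := ?_ }, nr_prod hL⟩
    · rintro ⟨a, x⟩
      simp
    · intro f
      simp
    · rintro ⟨a, x⟩ ⟨b, y⟩
      funext i
      refine Fin.cases ?_ (fun j => ?_) i
      · simp
      · simp

lemma exists_nr (ι : Type) [Finite ι] :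
    ∃ (L : Type) (_ : AddCommGroup L) (_ : L ≃+ (ι → ℤ)), NR L := by
  obtain ⟨n, ⟨e⟩⟩ := Finite.exists_equiv_fin ι
  obtain ⟨L, _, d, hL⟩ := exists_nr_fin n
  refine ⟨L, inferInstance, d.trans
    { toFun := fun f i => f (e i)
      invFun := fun f i => f (e.symm i)
      left_inv := fun f => by funext i; simp
      right_inv := fun f => by funext i; simp
      map_add' := fun f g => rfl }, hL⟩

end Pool.Agent.Helper49.PN
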